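import Pool.Agent.GEN.StmtsZC

/-!
# Squad GEN, row EMP
-/

set_option autoImplicit false

open Pool.Agent.Helper30_Simp2.H63

namespace Pool.Agent.GEN.H38

/-- The value of a Laurent monomial in the variables of `C`. -/
private noncomputable def emx {F : Type} [Field F] {σ : Type} (x : σ → F) (C : Finset σ)
    (v : σ → ℤ) : F :=
  ∏ i ∈ C, x i ^ v i

private theorem emp_zpow_sum {F : Type} [Field F] {y : F} (hy : y ≠ 0) {ι : Type}
    (s : Finset ι) (e : ι → ℤ) : y ^ (∑ w ∈ s, e w) = ∏ w ∈ s, y ^ e w := by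
  classical
  induction s using Finset.induction_on with
  | empty => simp
  | insert a s ha ih => rw [Finset.sum_insert ha, Finset.prod_insert ha, zpow_add₀ hy, ih]

private theorem emx_lin {F : Type} [Field F] {σ : Type} (x : σ → F) (C : Finset σ)
    (hx : ∀ i ∈ C, x i ≠ 0) {ι : Type} (s : Finset ι) (n : ι → ℤ) (w : ι → σ → ℤ) (v : σ → ℤ)
    (m : ℕ) (h : ∀ i, v i * (m : ℤ) = ∑ d ∈ s, w d i * n d) :
    emx x C v ^ m = ∏ d ∈ s, emx x C (w d) ^ n d := by
  unfold emx
  rw [← Finset.prod_pow]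
  have h1 : ∀ d ∈ s, (∏ i ∈ C, x i ^ w d i) ^ n d = ∏ i ∈ C, x i ^ (w d i * n d) := by
    intro d _
    rw [← Finset.prod_zpow]
    exact Finset.prod_congr rfl fun i _ => (zpow_mul _ _ _).symm
  rw [Finset.prod_congr rfl h1, Finset.prod_comm]
  refine Finset.prod_congr rfl fun i hi => ?_
  rw [← emp_zpow_sum (hx i hi), ← h i, zpow_mul, zpow_natCast]

/-- Clearing denominators. -/
private theorem emp_den {ι : Type} (s : Finset ι) (q : ι → ℚ) :
    ∃ m : ℕ, 0 < m ∧ ∃ n : ι → ℤ, ∀ d ∈ s, q d * (m : ℚ) = (n d : ℚ) := by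
  classical
  refine ⟨∏ d ∈ s, (q d).den, Finset.prod_pos fun d _ => (q d).den_pos, ?_⟩
  refine ⟨fun d => (q d).num * ((∏ d' ∈ s.erase d, (q d').den : ℕ) : ℤ), fun d hd => ?_⟩
  rw [← Finset.mul_prod_erase s _ hd]
  push_cast
  rw [← mul_assoc, Rat.mul_den_eq_num]

/-- A difference of exponents in the span has an algebraic value. -/
private theorem emp_alg {F : Type} [Field F] [CharZero F] {σ : Type} (x : σ → F) (C : Finset σ)
    (hx : ∀ i ∈ C, x i ≠ 0) {b : Set (σ → ℚ)} [Fintype b] (wz : b → σ → ℤ)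
    (hwz : ∀ (d : b) i, ((wz d i : ℤ) : ℚ) = (d : σ → ℚ) i) (E : IntermediateField ℚ F)
    (hE : ∀ d : b, emx x C (wz d) ∈ E) (v : σ → ℤ)
    (hv : (fun i => (v i : ℚ)) ∈ Submodule.span ℚ b) : IsAlgebraic E (emx x C v) := by
  classical
  have hv' : (fun i => (v i : ℚ)) ∈ Submodule.span ℚ (Set.range ((↑) : b → (σ → ℚ))) := by
    rwa [Subtype.range_coe]
  obtain ⟨q, hq⟩ := (Submodule.mem_span_range_iff_exists_fun ℚ).1 hv'
  obtain ⟨m, hm, n, hn⟩ := emp_den (Finset.univ : Finset b) q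
  have h1 : ∀ i, v i * (m : ℤ) = ∑ d ∈ (Finset.univ : Finset b), wz d i * n d := by
    intro i
    have h2 : ((v i : ℤ) : ℚ) = ∑ d : b, q d * (d : σ → ℚ) i := by
      have := congrFun hq i
      rw [Finset.sum_apply] at this
      exact this.symm
    have h3 : (((v i * (m : ℤ) : ℤ)) : ℚ) =
        ((∑ d ∈ (Finset.univ : Finset b), wz d i * n d : ℤ) : ℚ) := by
      push_cast
      rw [h2, Finset.sum_mul]
      refine Finset.sum_congr rfl fun d _ => ?_
      rw [hwz, ← hn d (Finset.mem_univ _)]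
      ring
    exact_mod_cast h3
  have h2 := emx_lin x C hx Finset.univ n wz v m h1
  refine IsAlgebraic.of_pow hm ?_
  rw [h2]
  have h3 : ∏ d ∈ (Finset.univ : Finset b), emx x C (wz d) ^ n d ∈ E :=
    prod_mem fun d _ => zpow_mem (hE d) _
  exact isAlgebraic_algebraMap (⟨_, h3⟩ : E)

/-- The field version. -/
private theorem emp_field (h0 : TrdStmt) {F : Type} [Field F] [CharZero F] {σ : Type}
    [Fintype σ] (I : Finset (σ →₀ ℕ)) (K : Finset σ) (hK : KS I K) (c : (σ →₀ ℕ) → F)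
    (hc : AlgebraicIndependent ℚ (fun α : I => c (α : σ →₀ ℕ))) (x : σ → F)
    (hx : ∀ i, i ∉ K → (∃ α ∈ I, α i ≠ 0) → x i ≠ 0) (C : Finset σ)
    (hC : ∀ i, i ∈ C ↔ i ∉ K ∧ ∃ α ∈ I, α i ≠ 0)
    (hz : ∀ j ∈ K, ∀ T : Finset (σ →₀ ℕ), (∀ α, α ∈ T ↔ α ∈ I ∧ α j = 1) →
      ∑ α ∈ T, c α * emx x C (fun i => (α i : ℤ)) = 0) : False := by
  classical
  obtain ⟨⟨hKne, hKsum, hKocc⟩, hrank⟩ := hK
  have hxC : ∀ i ∈ C, x i ≠ 0 := fun i hi => hx i ((hC i).1 hi).1 ((hC i).1 hi).2
  have hmo : ∀ v : σ → ℤ, emx x C v ≠ 0 := by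
    intro v
    unfold emx
    exact Finset.prod_ne_zero_iff.2 fun i hi => zpow_ne_zero _ (hxC i hi)
  -- uniqueness of the variable of `K`
  have huniq : ∀ α ∈ I, ∀ j ∈ K, ∀ j' ∈ K, α j = 1 → α j' = 1 → j = j' := by
    intro α hα j hj j' hj' h1 h2
    by_contra hne
    have h3 := hKsum α hα
    have h4 : ∑ i ∈ ({j, j'} : Finset σ), α i ≤ ∑ i ∈ K, α i := by
      refine Finset.sum_le_sum_of_subset ?_
      intro i hi
      rcases Finset.mem_insert.1 hi with rfl | hi
      · exact hj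
      · rw [Finset.mem_singleton.1 hi]
        exact hj'
    rw [Finset.sum_pair hne] at h4
    omega
  -- the basis
  obtain ⟨b, hbV, hbs, hbl⟩ := exists_linearIndependent ℚ
    {v : σ → ℚ | ∃ j ∈ K, ∃ α ∈ I, ∃ β ∈ I, α j = 1 ∧ β j = 1 ∧
      v = fun i => (α i : ℚ) - (β i : ℚ)}
  have hbfin : b.Finite := hbl.setFinite
  have : Fintype b := hbfin.fintype
  have hcard : Fintype.card b < K.card := by
    have h1 := finrank_span_set_eq_card (R := ℚ) (s := b) hbl
    rw [hbs, Set.toFinset_card] at h1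
    rw [← h1]
    exact hrank
  have hwz : ∀ d : b, ∃ w : σ → ℤ, ∀ i, ((w i : ℤ) : ℚ) = (d : σ → ℚ) i := by
    intro d
    obtain ⟨j, _, α, _, β, _, _, _, hd⟩ := hbV d.2
    refine ⟨fun i => (α i : ℤ) - (β i : ℤ), fun i => ?_⟩
    rw [hd]
    push_cast
    rfl
  choose wz hwz using hwz
  -- the chosen monomials
  choose! β hβI hβ1 using hKocc
  set T : Finset (σ →₀ ℕ) := I.filter (fun α => ∃ j ∈ K, α j = 1) with hT
  set B : Finset (σ →₀ ℕ) := K.image β with hB
  have hBT : B ⊆ T := by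
    intro α hα
    obtain ⟨j, hj, rfl⟩ := Finset.mem_image.1 hα
    exact Finset.mem_filter.2 ⟨hβI j hj, j, hj, hβ1 j hj⟩
  have hBcard : B.card = K.card := by
    refine Finset.card_image_of_injOn ?_
    intro j hj j' hj' h
    refine huniq (β j) (hβI j hj) j hj j' hj' (hβ1 j hj) ?_
    have h' : β j = β j' := h
    rw [h']
    exact hβ1 j' hj'
  let s : b ⊕ {α // α ∈ T \ B} → F :=
    Sum.elim (fun d : b => emx x C (wz d)) (fun α : {α // α ∈ T \ B} => c α.1)
  set E := IntermediateField.adjoin ℚ (Set.range s) with hE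
  have hs : ∀ t, s t ∈ E := fun t => IntermediateField.subset_adjoin ℚ _ ⟨t, rfl⟩
  have hcE : ∀ α ∈ T \ B, c α ∈ E := fun α hα => hs (Sum.inr ⟨α, hα⟩)
  have hu : ∀ j ∈ K, ∀ α ∈ I, α j = 1 →
      IsAlgebraic E (emx x C (fun i => (α i : ℤ)) / emx x C (fun i => (β j i : ℤ))) := by
    intro j hj α hα h1
    have h2 : emx x C (fun i => (α i : ℤ)) / emx x C (fun i => (β j i : ℤ)) =
        emx x C (fun i => (α i : ℤ) - (β j i : ℤ)) := by
      unfold emx
      rw [← Finset.prod_div_distrib]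
      exact Finset.prod_congr rfl fun i hi => (zpow_sub₀ (hxC i hi) _ _).symm
    rw [h2]
    refine emp_alg x C hxC wz hwz E (fun d => hs (Sum.inl d)) _ ?_
    rw [hbs]
    refine Submodule.subset_span ⟨j, hj, α, hα, β j, hβI j hj, h1, hβ1 j hj, ?_⟩
    funext i
    push_cast
    rfl
  have halg : ∀ α ∈ T, IsAlgebraic E (c α) := by
    intro α hα
    by_cases hαB : α ∈ B
    · obtain ⟨j, hj, rfl⟩ := Finset.mem_image.1 hαB
      have h1 := hz j hj (I.filter (fun α => α j = 1)) (fun α => Finset.mem_filter)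
      have h2 : β j ∈ I.filter (fun α => α j = 1) :=
        Finset.mem_filter.2 ⟨hβI j hj, hβ1 j hj⟩
      rw [← Finset.add_sum_erase _ _ h2] at h1
      have h3 : c (β j) = - ∑ α ∈ (I.filter (fun α => α j = 1)).erase (β j),
          c α * (emx x C (fun i => (α i : ℤ)) / emx x C (fun i => (β j i : ℤ))) := by
        have h4 : ∑ α ∈ (I.filter (fun α => α j = 1)).erase (β j),
            c α * (emx x C (fun i => (α i : ℤ)) / emx x C (fun i => (β j i : ℤ))) =
            (∑ α ∈ (I.filter (fun α => α j = 1)).erase (β j),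
              c α * emx x C (fun i => (α i : ℤ))) / emx x C (fun i => (β j i : ℤ)) := by
          rw [Finset.sum_div]
          exact Finset.sum_congr rfl fun α _ => by rw [mul_div_assoc]
        have h5 := eq_neg_of_add_eq_zero_right h1
        rw [h4, h5, neg_div, neg_neg, mul_div_cancel_right₀ _ (hmo _)]
      rw [← mem_algebraicClosure_iff, h3]
      refine neg_mem (sum_mem fun α hα' => mul_mem ?_ ?_)
      · rw [mem_algebraicClosure_iff]
        have h5 := Finset.mem_erase.1 hα'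
        have h6 := Finset.mem_filter.1 h5.2
        have h7 : α ∈ T \ B := by
          refine Finset.mem_sdiff.2 ⟨Finset.mem_filter.2 ⟨h6.1, j, hj, h6.2⟩, ?_⟩
          intro h8
          obtain ⟨j', hj', rfl⟩ := Finset.mem_image.1 h8
          have h9 := huniq (β j') (hβI j' hj') j hj j' hj' h6.2 (hβ1 j' hj')
          rw [h9] at h5
          exact h5.1 rfl
        exact isAlgebraic_algebraMap (⟨_, hcE α h7⟩ : E)
      · rw [mem_algebraicClosure_iff]
        have h5 := Finset.mem_erase.1 hα'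
        have h6 := Finset.mem_filter.1 h5.2
        exact hu j hj α h6.1 h6.2
    · exact isAlgebraic_algebraMap (⟨_, hcE α (Finset.mem_sdiff.2 ⟨hα, hαB⟩)⟩ : E)
  have hcT : AlgebraicIndependent ℚ (fun α : {α // α ∈ T} => c (α : σ →₀ ℕ)) :=
    hc.comp (fun α : {α // α ∈ T} => (⟨α.1, (Finset.mem_filter.1 α.2).1⟩ : I))
      (fun α α' h => Subtype.ext (congrArg (fun t : I => (t : σ →₀ ℕ)) h))
  have h1 := h0 F {α // α ∈ T} (b ⊕ {α // α ∈ T \ B}) (fun α => c α) s hcT
    (fun α => halg α.1 α.2)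
  rw [Fintype.card_sum, Fintype.card_coe, Fintype.card_coe, Finset.card_sdiff_of_subset hBT] at h1
  have h2 := Finset.card_le_card hBT
  omega

/-- Row EMP. -/
theorem emp (h0 : TrdStmt) : EmpStmt := by
  intro k _ _ σ _ f hf I K hI hK S _ _ _ x hx hz
  classical
  obtain ⟨m, hm⟩ := Ideal.exists_maximal S
  let _ : Field (S ⧸ m) := Ideal.Quotient.field m
  have : CharZero (S ⧸ m) := charZero_of_injective_algebraMap (algebraMap k (S ⧸ m)).injective
  have hc : AlgebraicIndependent ℚ (fun α : I => algebraMap k (S ⧸ m) (f.coeff (α : σ →₀ ℕ))) := by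
    have h1 := hf.map' (f := (algebraMap k (S ⧸ m)).toRatAlgHom)
      (algebraMap k (S ⧸ m)).injective
    exact h1.comp (fun α : I => (⟨α.1, hI α.2⟩ : f.support))
      (fun α α' h => Subtype.ext (congrArg (fun t : f.support => (t : σ →₀ ℕ)) h))
  refine emp_field h0 I K hK (fun α => algebraMap k (S ⧸ m) (f.coeff α)) hc
    (fun i => Ideal.Quotient.mk m (x i)) ?_
    (Finset.univ.filter (fun i => i ∉ K ∧ ∃ α ∈ I, α i ≠ 0)) (fun i => by simp) ?_
  · intro i hi hi'
    exact ((hx i hi hi').map (Ideal.Quotient.mk m)).ne_zero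
  · intro j hj T hT
    have h1 := hz j hj
    have h2 := congrArg (Ideal.Quotient.mk m) h1
    rw [map_zero] at h2
    rw [← h2]
    unfold gjv
    rw [map_sum]
    refine Finset.sum_congr ?_ ?_
    · ext α
      rw [hT, Finset.mem_filter]
    · intro α hα
      obtain ⟨hαI, hαj⟩ := Finset.mem_filter.1 hα
      unfold cof
      rw [map_mul, map_prod]
      have e1 : Ideal.Quotient.mk m (algebraMap k S (f.coeff α)) =
          algebraMap k (S ⧸ m) (f.coeff α) := rfl
      rw [e1]
      refine congrArg _ ?_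
      unfold emx
      symm
      refine Finset.prod_subset_one_on_sdiff ?_ ?_ ?_
      · intro i hi
        have h3 := Finset.mem_erase.1 hi
        have h4 := Finsupp.mem_support_iff.1 h3.2
        refine Finset.mem_filter.2 ⟨Finset.mem_univ _, ?_, α, hαI, h4⟩
        intro hiK
        have h5 := hK.1.2.1 α hαI
        have h6 : ∑ l ∈ ({i, j} : Finset σ), α l ≤ ∑ l ∈ K, α l := by
          refine Finset.sum_le_sum_of_subset ?_
          intro l hl
          rcases Finset.mem_insert.1 hl with rfl | hl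
          · exact hiK
          · rw [Finset.mem_singleton.1 hl]
            exact hj
        rw [Finset.sum_pair h3.1] at h6
        omega
      · intro i hi
        obtain ⟨h3, h4⟩ := Finset.mem_sdiff.1 hi
        have h5 : i ≠ j := by
          rintro rfl
          exact (Finset.mem_filter.1 h3).2.1 hj
        have h6 : α i = 0 := by
          by_contra h7
          exact h4 (Finset.mem_erase.2 ⟨h5, Finsupp.mem_support_iff.2 h7⟩)
        simp only [h6, Nat.cast_zero, zpow_zero]
      · intro i _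
        simp only [map_pow, zpow_natCast]

end Pool.Agent.GEN.H38
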